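import Pool.Agent.Helper23.CM.Goals
import Pool.Agent.Helper36.Eps.Bas

/-! # Packet CM ZTH: a criterion for thin relations -/

open scoped ENNReal
open Finset

namespace Pool.Agent.Helper8.CM

open Pool.Agent.Helper92.Eps
open Pool.Agent.Helper99.ZZ
open Pool.Agent.Helper23.CM
open Helper36.Eps (iv_pos iv_neg iv_mono iv_mul iv_le H_append)

variable {B : Type} {D : ℕ}

theorem str_pre {A : Alph B D} {T : ℕ} {s m : List B} (h : A.Str T s) (h' : A.Str T (s ++ m)) :
    m = [] := by
  by_contra hm
  have h1 : (s ++ m).dropLast = s ++ m.dropLast := List.dropLast_append_of_ne_nil hm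
  have h2 := h'.1
  rw [h1, H_append] at h2
  have h3 := h.2
  omega

theorem str_unique {A : Alph B D} {T : ℕ} {s s' l : List B} (h : A.Str T s) (h' : A.Str T s')
    (hs : s <+: l) (hs' : s' <+: l) : s = s' := by
  rcases List.prefix_or_prefix_of_prefix hs hs' with ⟨m, hm⟩ | ⟨m, hm⟩
  · rw [← hm] at h'
    have := str_pre h h'
    rw [← hm, this, List.append_nil]
  · rw [← hm] at h
    have := str_pre h' h
    rw [← hm, this, List.append_nil]

theorem ZTH_ : ZTH_stmt := by
  classical
  intro B D A hC hR _ J r a q hJ ha haJ hr R Z hRZ hZ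
  have hp : 2 ^ (J - 1) = 2 * 2 ^ (J - 2) := by
    rw [← pow_succ']
    exact congrArg _ (by omega)
  have hp0 : 0 < 2 ^ (J - 2) := by positivity
  refine ⟨?_, ?_⟩
  · intro p1 p2 h
    obtain ⟨s, t, h1, h2, h3, ⟨m, hm⟩, h5⟩ := hRZ p1 p2 h
    have hs : s <+: p2 := ⟨t ++ m, by rw [← hm, List.append_assoc]⟩
    have hlt : 2 ^ (J - a) < A.H p2 := by
      rw [← hm, H_append, H_append]
      have := h1.2
      omega
    obtain ⟨h6, m', h7⟩ := hC.fpp_str _ p2 hlt
    have h8 := str_unique h6 h1 ⟨m', h7.symm⟩ hs
    rw [h8]
    exact h2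
  · intro p1 s om hs hHs hom
    set T := r - A.H s with hT
    set P : List B → Prop := fun t' => A.Str T t' ∧ R p1 (s ++ t') with hP
    have hex : ∀ t', P t' → ∃ t t'' : List B, t ++ t'' = t' ∧ A.H (s ++ t) ≤ 2 ^ (J - 2) ∧
        Z p1 (s ++ t) := by
      rintro t' ⟨h1, h2⟩
      obtain ⟨s', t, g1, g2, g3, ⟨m, hm⟩, g5⟩ := hRZ p1 _ h2
      have hs' : s' = s := str_unique g1 hs ⟨t ++ m, by rw [← hm, List.append_assoc]⟩
        ⟨t', rfl⟩
      subst hs'
      refine ⟨t, m, ?_, g3, g5⟩
      rw [List.append_assoc] at hm
      exact List.append_cancel_left hm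
    let f : List B → List B × List B := fun t' =>
      if h : P t' then ((hex t' h).choose, (hex t' h).choose_spec.choose) else ([], t')
    have hf : ∀ t', (f t').1 ++ (f t').2 = t' := by
      intro t'
      by_cases h : P t'
      · simp only [f, dif_pos h]
        exact (hex t' h).choose_spec.choose_spec.1
      · simp only [f, dif_neg h]
        rfl
    have hinj : Function.Injective f := by
      intro x y hxy
      rw [← hf x, ← hf y, hxy]
    let G : List B × List B → ℝ≥0∞ := fun x =>
      (A.W x.1 * iv (Z p1 (s ++ x.1)) 1) * iv (A.Str (r - A.H (s ++ x.1)) x.2) (A.W x.2)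
    have hW : ∀ x y : List B, A.W (x ++ y) = A.W x * A.W y := by
      intro x y
      simp [Alph.W]
    have hle : ∀ t', iv (A.Str T t') (A.W t' * (om (s ++ t') * iv (R p1 (s ++ t')) 1)) ≤
        G (f t') := by
      intro t'
      by_cases h : P t'
      · have hh : A.Str T t' ∧ R p1 (s ++ t') := h
        have c1 := (hex t' h).choose_spec.choose_spec
        have c2 : f t' = ((hex t' h).choose, (hex t' h).choose_spec.choose) := by
          simp only [f, dif_pos h]
        rw [c2]
        generalize (hex t' h).choose_spec.choose = t'' at c1 ⊢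
        generalize (hex t' h).choose = t at c1 ⊢
        obtain ⟨d1, d2, d3⟩ := c1
        have hne : t'' ≠ [] := by
          intro h0
          rw [h0, List.append_nil] at d1
          have := hh.1.2
          rw [← d1] at this
          rw [H_append] at d2
          omega
        have hstr : A.Str (r - A.H (s ++ t)) t'' := by
          have g := hh.1
          rw [← d1] at g
          obtain ⟨g1, g2⟩ := g
          rw [List.dropLast_append_of_ne_nil hne, H_append] at g1
          rw [H_append] at g2 d2
          unfold Alph.Str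
          rw [H_append]
          omega
        simp only [G]
        rw [iv_pos hh.1, iv_pos hh.2, iv_pos d3, iv_pos hstr, mul_one, mul_one, ← hW, d1]
        exact (mul_le_mul' le_rfl (hom.1 _)).trans (mul_one _).le
      · by_cases h1 : A.Str T t'
        · rw [iv_pos h1, iv_neg (fun h2 => h ⟨h1, h2⟩), mul_zero, mul_zero]
          exact zero_le
        · rw [iv_neg h1]
          exact zero_le
    unfold Alph.GG
    calc ∑' t' : List B, iv (A.Str T t') (A.W t' * (om (s ++ t') * iv (R p1 (s ++ t')) 1))
        ≤ ∑' t' : List B, G (f t') := ENNReal.tsum_le_tsum hle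
      _ ≤ ∑' x, G x := ENNReal.tsum_comp_le_tsum_of_injective hinj G
      _ = ∑' t : List B, ∑' t'' : List B, G (t, t'') := ENNReal.tsum_prod'
      _ = ∑' t : List B, A.W t * iv (Z p1 (s ++ t)) 1 := by
          refine tsum_congr fun t => ?_
          simp only [G]
          rw [ENNReal.tsum_mul_left]
          have := hC.GG_one (r - A.H (s ++ t))
          unfold Alph.GG at this
          simp only [mul_one] at this
          rw [this, mul_one]
      _ ≤ q := hZ p1 s hs
      _ ≤ 2 * q := by
          rw [two_mul]
          exact le_add_self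

end Pool.Agent.Helper8.CM
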